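import Pool.Agent.helper14.NS.Cert

/-!
Generated: table Q68d.
-/

namespace Pool.Agent.helper14.NS.Q68d

open Pool.Agent.helper63.NF Pool.Agent.helper4.NS

def tab : TD where
  strip := false
  bm := none
  ec := 13589544960
  bc := 1649267441664
  H := [[[-7682470912, 8325947648, -2494852096, 1477904640], [-1719243008512, -729036240448], [22374057246208]], [[562381120, 959382336, 778667456], [289735020224, -36650109504]], [[78344704, -413983104, -129132288], [-40043897600]], [[-25768704, 56578688], [2269985152]], [[5741696, -3967296]], [[-653120]], [[34880]]]
  pol := some ⟨-1201517101056, -48601849921536, 5872294035456, 31362867265536, [[-10170787328, -83361390208], [-1219640237696, 0]], [[530386305280, -31480417856], [56610123037376, 0]]⟩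
  a := [[[216610177024, 73892757504, -13452050432, -199582416896], [-13968473653248, 6725456953344]], [[75543412736, 11943542784, 18003197952, -59919237120], [-806714867712, 6739406487552]], [[70235652096, -87556096, 9018277888, -26339573760], [852595048448, 7770365100032]], [[65807187968, -8668512256, 14849802240, 18331402240], [1212277194752, 5705280978944]], [[69736398848, -11232411648, 7801929728, 29188227072], [1602786164736, 3451490664448]], [[69661622272, -8360755200, -313458688, 17105616896], [1399342366720, 2318747697152]]]
  j := [-8796093022208, 11132555231232, 17317308137472, 20066087206912, 24601572671488, 24326694764544]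
  c := [659814350848, 769604452352, 549755813888, 384936443904, 219848638464, 110058536960]
  M := [[[[1097831350272, -1767309312, 742785024], [-556961824768, 1590971006976], [71685362810880]], [[45038305280, 23074832384], [5360220110848]], [[-21408710656, -42428137472], [1115215233024]], [[176664608768]], [[-242163646464]], [[156067889152]]], [[[1102275870720, 4340121600, 3708878848], [653219004416]], [[7230783488, 150011904], [553239511040]], [[-218759168]], [[16318464]]], [[[1102862286848, 2397503488, 1079115776], [491756191744]], [[6725566464, 297205760], [541735649280]], [[-90243072]], [[8192000]]], [[[1104086302720, 3792633856, 231866368], [315747074048]], [[6433865728, 96010240], [529169711104]], [[-4259840]], [[1703936]]], [[[1104688316416, 4886757376, -1737162752], [633957646336]], [[6390415360, -124387328], [524131893248]], [[15269888]], [[196608]]], [[[1103124692992, 4674813952, -2922250240], [1446654509056]], [[6903103488, -133103616], [456840577024]], [[-35979264]], [[2162688]]]]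
  l0 := [[[3523861252224, 92958193792], [5311269250368]], [[1590505068928, -5407312576], [-13920321535680]], [[652450532352, -260728187072], [-31973698436288]], [[-452083776640, -56267726656], [-22558102065600]], [[3210569494848, 452455326976], [39825606903232]], [[-7839105926144, -841055465408], [-95453771230144]], [[18304887354880]], [[-28273667621696]], [[33817285331520]], [[-22977617876032]], [[11720426572864]], [[599158969280]]]
  q0 := [[81692241920, 56284894656, 2736186304], [6705223651328, 5074017908800], [33509596849152]]
  t := [[[1518422654976, -158355292160, -110914502656, 171290329088], [-20296787558400, -29130602053632]], [[366637875200, 135169310720, 94895931392, -257750007808], [8629440872448, 20652836519936]], [[335741779968, 91065352192, 68575625216, -155995602944], [9228457607168, 19390783422464]], [[334930706432, 70016499712, 41278767104, -51107987456], [8947532496896, 14092722241536]], [[363742625792, 9330294784, -30125064192, 139680743424], [6667430658048, -2650554695680]], [[411917877248, -28410707968, -63923355648, 146020499456], [2555832827904, -7662277427200]]]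
  y := [9272834392064, 11446087843840, 13651553550336, 15859166740480, 18022756515840, 20088635785216]
  sc := [0, 0, 0, 0, 0, 0]
  L := [(0, 2), (0, 3), (1, 1), (2, 0)]
  Lt := [(0, 2), (0, 3), (1, 1)]
  far := 3
  x2 := 12094627905536
  B1 := 1539315859456
  C2 := 1509133494272
  f1 := 0
  f2 := 0
  f3 := 0
  is1 := 8796093022208
  s1 := 137438953472

end Pool.Agent.helper14.NS.Q68d
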